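import Pool.Agent.N822.TO.Asm
import Pool.Agent.N878.TO.Box
import Pool.Agent.N592.TO.Fl
import Pool.Agent.N296.TO.Pos
import Pool.Agent.N547.TO.Haus
import Pool.Agent.N547.TO.Fin
import Pool.Agent.N434.TO.Count

/-!
# Tube occupancy bounds for all exponents below `d - 1` (MP_e5cefd_an, Q1: YES)

For every `d ≥ 2` there is a compact set `K ⊆ ℝ ^ d` of positive finite `(d - 1)`-dimensional
Hausdorff measure with `ℋ ^ (d - 1) (K ∩ T) ≤ C w ^ (d - 1) (1 + log (1 / w)) ^ 5` for all tubes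
`T` of width `w ≤ 1`.  It satisfies the `s`-tube bound for all `s < d - 1` at once.
-/

namespace Pool.Agent.Results.MP_e5cefd_an.AllTubeExponents

open MeasureTheory

/-- The tube of width `w` around the line through `p` with direction `v` (`v ≠ 0`). -/
def Tube {d : ℕ} (p v : EuclideanSpace ℝ (Fin d)) (w : ℝ) : Set (EuclideanSpace ℝ (Fin d)) :=
  {x | Metric.infDist x (Set.range fun t : ℝ => p + t • v) ≤ w / 2}

/-- For every `d ≥ 2` there is a compact set `K` with `0 < ℋ ^ (d - 1) (K) < ∞` such that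
(a) `ℋ ^ (d - 1) (K ∩ T) ≤ C w ^ (d - 1) (1 + log (1 / w)) ^ 5` for all tubes of width `w ≤ 1`,
(b) for every `s < d - 1` there is a constant `C` with `ℋ ^ (d - 1) (K ∩ T) ≤ C w ^ s` for all
tubes (of width at most `1` when `s < 0`). -/
theorem result : ∀ d : ℕ, 2 ≤ d → ∃ K : Set (EuclideanSpace ℝ (Fin d)), IsCompact K ∧
    0 < Measure.hausdorffMeasure ((d : ℝ) - 1) K ∧
    Measure.hausdorffMeasure ((d : ℝ) - 1) K < ⊤ ∧
    (∃ C : ℝ, ∀ (p v : EuclideanSpace ℝ (Fin d)) (w : ℝ), v ≠ 0 → 0 < w → w ≤ 1 →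
      Measure.hausdorffMeasure ((d : ℝ) - 1) (K ∩ Tube p v w) ≤
        ENNReal.ofReal (C * w ^ (d - 1) * (1 + Real.log (1 / w)) ^ 5)) ∧
    ∀ s : ℝ, s < d - 1 → ∃ C : ℝ, ∀ (p v : EuclideanSpace ℝ (Fin d)) (w : ℝ), v ≠ 0 → 0 < w →
      (0 ≤ s ∨ w ≤ 1) →
      Measure.hausdorffMeasure ((d : ℝ) - 1) (K ∩ Tube p v w) ≤ ENNReal.ofReal (C * w ^ s) :=
  Pool.Agent.N822.TO.goal Pool.Agent.N878.TO.t_BOX Pool.Agent.N592.TO.fl
    Pool.Agent.N296.TO.t_POS Pool.Agent.N547.TO.Haus.haus Pool.Agent.N434.TO.count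
    Pool.Agent.N547.TO.fin

end Pool.Agent.Results.MP_e5cefd_an.AllTubeExponents
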